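import Pool.Agent.Q236.CR.Stm2

/-! # CR, job MJE: the energy on the major arcs (helper285) -/

set_option autoImplicit false

namespace Pool.Agent.Q285.CR

open Finset
open Pool.Agent.Q236.CR
open Pool.Agent.H469R2.NK (e)
open Pool.Agent.H300R2.BH (chf)
open Pool.Agent.H442R2.EHI (Maj)

/-- the arcs with integral numerators are those with numerators between `0` and `q` -/
lemma maj_nat {Q N h : ℕ} {δ : ℝ} (hN : h < N) (hm : Maj Q δ ((h : ℝ) / N)) (hQ : Q * δ < 1) :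
    ∃ q ∈ Icc 1 Q, ∃ b ∈ range (q + 1), |(h : ℝ) / N - (b : ℝ) / q| ≤ δ := by
  obtain ⟨q, hq, b, hb⟩ := hm
  obtain ⟨q1, qQ⟩ := mem_Icc.1 hq
  have hδ : 0 ≤ δ := (abs_nonneg _).trans hb
  have q0 : (0 : ℝ) < q := by exact_mod_cast q1
  have hqδ : q * δ < 1 := lt_of_le_of_lt (mul_le_mul_of_nonneg_right (by exact_mod_cast qQ) hδ) hQ
  have hN0 : (0 : ℝ) < N := by exact_mod_cast (by omega : 0 < N)
  have t0 : 0 ≤ (h : ℝ) / N := by positivity
  have t1 : (h : ℝ) / N < 1 := by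
    rw [div_lt_one hN0]
    exact_mod_cast hN
  obtain ⟨a1, a2⟩ := abs_le.1 hb
  have e1 : q * ((b : ℝ) / q) = b := by field_simp
  have l1 : (-1 : ℝ) < b := by
    have : q * (-δ) ≤ q * ((b : ℝ) / q) := mul_le_mul_of_nonneg_left (by linarith) q0.le
    rw [e1] at this
    linarith
  have l2 : (b : ℝ) < q + 1 := by
    have : q * ((b : ℝ) / q) < q * (1 + δ) := mul_lt_mul_of_pos_left (by linarith) q0
    rw [e1] at this
    linarith
  have l1' : -1 < b := by exact_mod_cast l1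
  have l2' : b < q + 1 := by exact_mod_cast l2
  obtain ⟨n, rfl⟩ := Int.eq_ofNat_of_zero_le (show 0 ≤ b by omega)
  refine ⟨q, hq, n, mem_range.2 (by omega), ?_⟩
  simpa using hb

open Classical in
theorem mje (gal : S_GAL) : S_MJE := by
  intro f x E C U Q Y δ hx hW hQ hQL hY hYx h1 h2 h3 h4
  obtain ⟨N, hN⟩ : ∃ N, N = 16 * x + 1 := ⟨_, rfl⟩
  rw [← hN]
  have hxr : (3 : ℝ) ≤ x := by exact_mod_cast hx
  have hL : 0 < Real.log x := Real.log_pos (by linarith)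
  have hY0 : (0 : ℝ) < Y := by exact_mod_cast hY
  have hNr : (N : ℝ) = 16 * x + 1 := by rw [hN]; push_cast; ring
  have hN0 : (0 : ℝ) < N := by rw [hNr]; linarith
  have hLU : 0 < Real.log x ^ U := pow_pos hL U
  obtain ⟨B, hB⟩ : ∃ B : ℝ, B = 4 / (N * (Y : ℝ) ^ 2) * (x * (Y : ℝ) ^ 2 / Real.log x ^ U) := ⟨_, rfl⟩
  have hB0 : 0 ≤ B := by rw [hB]; positivity
  have hδ : δ ≤ 1 / (8 * (Y : ℝ)) := by
    rw [le_div_iff₀ (by positivity)]
    linarith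
  have key : ∀ q ∈ Icc 1 Q, ∀ b : ℕ,
      ∑ h ∈ range N, (if |(h : ℝ) / N - (b : ℝ) / q| ≤ 1 / (8 * (Y : ℝ)) then ‖chf f x N h‖ ^ 2 else 0) ≤
        B := by
    intro q hq b
    obtain ⟨q1, qQ⟩ := mem_Icc.1 hq
    rw [← sum_filter, hB]
    refine (gal f x N Y q b hY q1 (by omega)).trans ?_
    refine mul_le_mul_of_nonneg_left ?_ (by positivity)
    exact hW q q1 ((by exact_mod_cast qQ : (q : ℝ) ≤ Q).trans hQL) b Y h1 h2
  have s1 : ∑ h ∈ (range N).filter (fun h : ℕ => Maj Q δ ((h : ℝ) / (N : ℝ))), ‖chf f x N h‖ ^ 2 ≤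
      ∑ q ∈ Icc 1 Q, ∑ b ∈ range (q + 1), ∑ h ∈ range N,
        (if |(h : ℝ) / N - (b : ℝ) / q| ≤ 1 / (8 * (Y : ℝ)) then ‖chf f x N h‖ ^ 2 else 0) := by
    have s2 : ∑ q ∈ Icc 1 Q, ∑ b ∈ range (q + 1), ∑ h ∈ range N,
        (if |(h : ℝ) / N - (b : ℝ) / q| ≤ 1 / (8 * (Y : ℝ)) then ‖chf f x N h‖ ^ 2 else 0) =
        ∑ h ∈ range N, ∑ q ∈ Icc 1 Q, ∑ b ∈ range (q + 1),
        (if |(h : ℝ) / N - (b : ℝ) / q| ≤ 1 / (8 * (Y : ℝ)) then ‖chf f x N h‖ ^ 2 else 0) := by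
      rw [sum_congr rfl (fun q _ => sum_comm), sum_comm]
    rw [s2]
    have nn : ∀ h q b : ℕ, 0 ≤ (if |(h : ℝ) / N - (b : ℝ) / q| ≤ 1 / (8 * (Y : ℝ)) then
        ‖chf f x N h‖ ^ 2 else 0) := by
      intro h q b
      split_ifs
      · positivity
      · exact le_rfl
    refine le_trans ?_ (sum_le_sum_of_subset_of_nonneg (filter_subset
      (fun h : ℕ => Maj Q δ ((h : ℝ) / (N : ℝ))) (range N)) fun h _ _ =>
        sum_nonneg fun q _ => sum_nonneg fun b _ => nn h q b)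
    refine sum_le_sum fun h hh => ?_
    obtain ⟨hh1, hh2⟩ := mem_filter.1 hh
    obtain ⟨q, hq, b, hb, hqb⟩ := maj_nat (mem_range.1 hh1) hh2 h4
    refine le_trans ?_ (single_le_sum (f := fun q => ∑ b ∈ range (q + 1),
      (if |(h : ℝ) / N - (b : ℝ) / q| ≤ 1 / (8 * (Y : ℝ)) then ‖chf f x N h‖ ^ 2 else 0))
      (fun q _ => sum_nonneg fun b _ => nn h q b) hq)
    refine le_trans ?_ (single_le_sum (f := fun b : ℕ =>
      (if |(h : ℝ) / N - (b : ℝ) / q| ≤ 1 / (8 * (Y : ℝ)) then ‖chf f x N h‖ ^ 2 else 0))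
      (fun b _ => nn h q b) hb)
    rw [if_pos (hqb.trans hδ)]
  have s3 : ∑ q ∈ Icc 1 Q, ∑ b ∈ range (q + 1), ∑ h ∈ range N,
        (if |(h : ℝ) / N - (b : ℝ) / q| ≤ 1 / (8 * (Y : ℝ)) then ‖chf f x N h‖ ^ 2 else 0) ≤
      Q * ((Q + 1) * B) := by
    have s4 : ∀ q ∈ Icc 1 Q, ∑ b ∈ range (q + 1), ∑ h ∈ range N,
        (if |(h : ℝ) / N - (b : ℝ) / q| ≤ 1 / (8 * (Y : ℝ)) then ‖chf f x N h‖ ^ 2 else 0) ≤
        (Q + 1) * B := by
      intro q hq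
      refine (sum_le_sum fun b _ => key q hq b).trans ?_
      rw [sum_const, card_range, nsmul_eq_mul]
      have : ((q + 1 : ℕ) : ℝ) ≤ Q + 1 := by exact_mod_cast Nat.succ_le_succ (mem_Icc.1 hq).2
      exact mul_le_mul_of_nonneg_right this hB0
    refine (sum_le_sum s4).trans ?_
    rw [sum_const, Nat.card_Icc, nsmul_eq_mul]
    simp
  refine s1.trans (s3.trans ?_)
  have hQ1 : (1 : ℝ) ≤ Q := by exact_mod_cast hQ
  have e1 : B = 4 * x / N / Real.log x ^ U := by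
    rw [hB]
    field_simp
  have e2 : 4 * x / (N : ℝ) ≤ 1 / 4 := by
    rw [hNr, div_le_div_iff₀ (by linarith) (by norm_num)]
    linarith
  have e3 : B ≤ 1 / 4 / Real.log x ^ U := by
    rw [e1]
    exact div_le_div_of_nonneg_right e2 hLU.le
  have e4 : (Q : ℝ) * ((Q + 1) * B) ≤ Q * ((Q + 1) * (1 / 4 / Real.log x ^ U)) := by
    refine mul_le_mul_of_nonneg_left (mul_le_mul_of_nonneg_left e3 (by linarith)) (by linarith)
  refine e4.trans ?_
  have e5 : (Q : ℝ) * ((Q + 1) * (1 / 4 / Real.log x ^ U)) = (Q * (Q + 1) / 4) / Real.log x ^ U := by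
    ring
  rw [e5]
  refine div_le_div_of_nonneg_right ?_ hLU.le
  nlinarith

end Pool.Agent.Q285.CR
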