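import Pool.Agent.Q236.CR.Stm5
import Pool.Agent.Q14.CR.Cnt

/-!
# Project CR (helper236), job CNTW: from von Mangoldt weights to prime values, with a weight
-/

set_option autoImplicit false

namespace Pool.Agent.Q285.CR

open Finset Filter Polynomial
open Pool.Agent.Q236.CR
open Pool.Agent.Q14.CR (prod_sub_le abel_le)

open Classical in
theorem cntw (hTV : S_TV) : S_CNTW := by
  intro k D A
  obtain ⟨M, hM⟩ : ∃ M : ℝ, M = 10 + (2 * ((D : ℝ) + 3)) ^ k + 4 * k * D + 2 ^ k + ((D : ℝ) + 3) ^ k :=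
    ⟨_, rfl⟩
  refine ⟨A + k + 3, ⌈Real.exp M⌉₊, ?_⟩
  intro H hH P K K1 S v hdeg hbd hS hSlog hK11 hK1 hKH hv hmain hbad
  -- sizes
  have hD0 : (0 : ℝ) ≤ D := Nat.cast_nonneg D
  have hk0 : (0 : ℝ) ≤ k := Nat.cast_nonneg k
  have hp1 : (0 : ℝ) ≤ (2 * ((D : ℝ) + 3)) ^ k := by positivity
  have hp2 : (0 : ℝ) ≤ (2 : ℝ) ^ k := by positivity
  have hp3 : (0 : ℝ) ≤ ((D : ℝ) + 3) ^ k := by positivity
  have hp4 : (0 : ℝ) ≤ 4 * k * D := by positivity
  have hHexp : Real.exp M ≤ H := (Nat.le_ceil _).trans (by exact_mod_cast hH)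
  have hHpos : (0 : ℝ) < H := (Real.exp_pos _).trans_le hHexp
  obtain ⟨L, hL⟩ : ∃ L : ℝ, L = Real.log H := ⟨_, rfl⟩
  have hLM : M ≤ L := by
    rw [hL]
    exact (Real.le_log_iff_exp_le hHpos).2 hHexp
  have hL10 : 10 ≤ L := by linarith
  have hL0 : 0 < L := by linarith
  have hL1 : 1 ≤ L := by linarith
  rw [← hL] at hSlog hK1 hmain hbad ⊢
  have hH10 : (10 : ℝ) ≤ H := by
    have h1 : (10 : ℝ) ≤ Real.exp M := by
      have := Real.add_one_le_exp M
      linarith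
    linarith
  obtain ⟨Y, hY⟩ : ∃ Y : ℝ, Y = Real.sqrt H := ⟨_, rfl⟩
  have hYsq : Y * Y = H := by rw [hY]; exact Real.mul_self_sqrt hHpos.le
  have hY0 : 0 ≤ Y := by rw [hY]; exact Real.sqrt_nonneg _
  have hY3 : 3 ≤ Y := by
    rw [hY]
    exact Real.le_sqrt_of_sq_le (by linarith)
  have hlogY : Real.log Y = L / 2 := by rw [hY, Real.log_sqrt hHpos.le, hL]
  have hK1pos : (0 : ℝ) < K1 := by exact_mod_cast hK11
  have hKpos : (0 : ℝ) < K := lt_of_lt_of_le (by positivity) hK1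
  have hK : 1 ≤ K := by exact_mod_cast hKpos
  -- the functions
  obtain ⟨a, ha⟩ : ∃ a : ℕ → ℝ, ∀ n, a n =
      v n * ∏ i, ArithmeticFunction.vonMangoldt ((P i).eval (n : ℤ)).natAbs := ⟨_, fun n => rfl⟩
  obtain ⟨φ, hφ⟩ : ∃ φ : ℕ → ℝ, ∀ n, φ n = ∏ i, psi (P i) Y n := ⟨_, fun n => rfl⟩
  have hpsi : ∀ i n, 0 ≤ psi (P i) Y n ∧ psi (P i) Y n ≤ 2 / L := by
    intro i n
    have h1 : Real.log Y ≤ Real.log (max |(((P i).eval (n : ℤ) : ℤ) : ℝ)| Y) :=
      Real.log_le_log (by linarith) (le_max_right _ _)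
    rw [hlogY] at h1
    have h2 : 0 < Real.log (max |(((P i).eval (n : ℤ) : ℤ) : ℝ)| Y) := by linarith
    refine ⟨?_, ?_⟩
    · unfold psi
      positivity
    · unfold psi
      have h3 := one_div_le_one_div_of_le (by linarith : 0 < L / 2) h1
      have h4 : 1 / (L / 2) = 2 / L := by field_simp
      rwa [h4] at h3
  have h2L : 2 / L ≤ 1 := by
    rw [div_le_one hL0]
    linarith
  have hpsi1 : ∀ n i, 0 ≤ psi (P i) Y n ∧ psi (P i) Y n ≤ 1 := fun n i =>
    ⟨(hpsi i n).1, (hpsi i n).2.trans h2L⟩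
  have hφ0 : ∀ n, 0 ≤ φ n := fun n => by
    rw [hφ]
    exact prod_nonneg fun i _ => (hpsi1 n i).1
  have hφ1 : ∀ n, φ n ≤ 1 := fun n => by
    rw [hφ]
    exact prod_le_one (fun i _ => (hpsi1 n i).1) fun i _ => (hpsi1 n i).2
  have hφ2 : ∀ n, φ n ≤ (2 / L) ^ k := fun n => by
    rw [hφ]
    have h1 := prod_le_prod (s := (univ : Finset (Fin k))) (f := fun i => psi (P i) Y n)
      (g := fun _ => 2 / L) (fun i _ => (hpsi i n).1) (fun i _ => (hpsi i n).2)
    rwa [prod_const, card_univ, Fintype.card_fin] at h1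
  have ha0 : ∀ n, 0 ≤ a n := fun n => by
    rw [ha]
    exact mul_nonneg (hv n).1 (prod_nonneg fun i _ => ArithmeticFunction.vonMangoldt_nonneg)
  have ha1 : ∀ n, 1 ≤ n → n ≤ K → a n ≤ (((D : ℝ) + 3) * L) ^ k := by
    intro n hn1 hn2
    rw [ha]
    refine (mul_le_of_le_one_left (prod_nonneg fun i _ => ArithmeticFunction.vonMangoldt_nonneg)
      (hv n).2).trans ?_
    have h1 := prod_le_prod (s := (univ : Finset (Fin k)))
      (f := fun i => ArithmeticFunction.vonMangoldt ((P i).eval (n : ℤ)).natAbs)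
      (g := fun _ => ((D : ℝ) + 3) * L) (fun i _ => ArithmeticFunction.vonMangoldt_nonneg) ?_
    · rwa [prod_const, card_univ, Fintype.card_fin] at h1
    · intro i _
      refine ArithmeticFunction.vonMangoldt_le_log.trans ?_
      rcases Nat.eq_zero_or_pos ((P i).eval (n : ℤ)).natAbs with h0 | h0
      · rw [h0, Nat.cast_zero, Real.log_zero]
        positivity
      · have h2 : ((((P i).eval (n : ℤ)).natAbs : ℕ) : ℝ) ≤ (H : ℝ) ^ (D + 3) := by
          exact_mod_cast hbd i n hn1 hn2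
        have h3 := Real.log_le_log (by exact_mod_cast h0) h2
        rw [Real.log_pow, ← hL] at h3
        push_cast at h3
        exact h3
  -- the bad set
  obtain ⟨bad, hbdef⟩ : ∃ bad : Finset ℕ, bad = (Finset.Icc 1 K).filter (fun n : ℕ => ∃ i,
    ((P i).eval (n : ℤ)).natAbs ^ 2 ≤ H ∨
    ∃ a m : ℕ, 2 ≤ m ∧ a ^ m = ((P i).eval (n : ℤ)).natAbs) := ⟨_, rfl⟩
  rw [← hbdef] at hbad
  have hgood : ∀ n, n ∈ Finset.Icc 1 K → n ∉ bad → ∀ i,
      Y < |(((P i).eval (n : ℤ) : ℤ) : ℝ)| ∧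
      (ArithmeticFunction.vonMangoldt ((P i).eval (n : ℤ)).natAbs =
        if ((P i).eval (n : ℤ)).natAbs.Prime then Real.log |(((P i).eval (n : ℤ) : ℤ) : ℝ)|
        else 0) := by
    intro n hn hnb i
    rw [hbdef, mem_filter, not_and] at hnb
    have h1 := hnb hn
    push Not at h1
    obtain ⟨h2, h3⟩ := h1 i
    have h4 : ((((P i).eval (n : ℤ)).natAbs : ℕ) : ℝ) = |(((P i).eval (n : ℤ) : ℤ) : ℝ)| := by
      rw [Nat.cast_natAbs, Int.cast_abs]
    refine ⟨?_, ?_⟩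
    · rw [hY]
      refine (Real.sqrt_lt' ?_).2 ?_
      · rw [← h4]
        have : 0 < ((P i).eval (n : ℤ)).natAbs := by
          rcases Nat.eq_zero_or_pos ((P i).eval (n : ℤ)).natAbs with h0 | h0
          · rw [h0] at h2
            omega
          · exact h0
        exact_mod_cast this
      · rw [← h4]
        exact_mod_cast h2
    · split_ifs with hp
      · rw [ArithmeticFunction.vonMangoldt_apply_prime hp, h4]
      · rw [ArithmeticFunction.vonMangoldt_eq_zero_iff]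
        intro hpp
        rw [isPrimePow_nat_iff] at hpp
        obtain ⟨p, j, hp1, hj, hpj⟩ := hpp
        rcases Nat.lt_or_ge j 2 with hj2 | hj2
        · have : j = 1 := by omega
          rw [this, pow_one] at hpj
          rw [hpj] at hp1
          exact hp hp1
        · exact h3 p j hj2 hpj
  -- comparison for `piP`
  obtain ⟨u, hu⟩ : ∃ u : ℕ → ℝ, ∀ n, u n =
      if ∀ i, ((P i).eval (n : ℤ)).natAbs.Prime then v n else 0 :=
    ⟨_, fun n => rfl⟩
  obtain ⟨t, ht⟩ : ∃ t : ℕ → ℝ, ∀ n, t n = if ∀ i, 2 ≤ |(P i).eval (n : ℤ)| then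
      v n * ∏ i, 1 / Real.log |(((P i).eval (n : ℤ) : ℤ) : ℝ)| else 0 := ⟨_, fun n => rfl⟩
  obtain ⟨pv, hpv⟩ : ∃ pv : ℝ, pv = ∑ n ∈ (Finset.Icc 1 K).filter
      (fun n : ℕ => ∀ i, ((P i).eval (n : ℤ)).natAbs.Prime), v n := ⟨_, rfl⟩
  obtain ⟨Mv, hMv⟩ : ∃ Mv : ℝ, Mv = ∑ n ∈ (Finset.Icc 1 K).filter
      (fun n : ℕ => ∀ i, 2 ≤ |(P i).eval (n : ℤ)|),
      v n * ∏ i, (1 / Real.log |(((P i).eval (n : ℤ) : ℤ) : ℝ)|) := ⟨_, rfl⟩
  rw [← hpv, ← hMv]
  have hpi : pv = ∑ n ∈ Icc 1 K, u n := by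
    rw [hpv, sum_filter]
    refine sum_congr rfl fun n _ => ?_
    rw [hu]
  have hMP : Mv = ∑ n ∈ Icc 1 K, t n := by
    rw [hMv, sum_filter]
    refine sum_congr rfl fun n _ => ?_
    rw [ht]
  have hgu : ∀ n ∈ Icc 1 K, n ∉ bad → u n = φ n * a n := by
    intro n hn hnb
    have h1 := hgood n hn hnb
    rw [hu, hφ, ha, mul_left_comm, ← prod_mul_distrib]
    split_ifs with hp
    · rw [prod_eq_one, mul_one]
      intro i _
      obtain ⟨h2, h3⟩ := h1 i
      rw [h3, if_pos (hp i)]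
      unfold psi
      rw [max_eq_left h2.le, one_div, inv_mul_cancel₀]
      exact (Real.log_pos (by linarith)).ne'
    · push Not at hp
      obtain ⟨i, hi⟩ := hp
      obtain ⟨h2, h3⟩ := h1 i
      rw [if_neg hi] at h3
      rw [prod_eq_zero (mem_univ i), mul_zero]
      rw [h3, mul_zero]
  have hgt : ∀ n ∈ Icc 1 K, n ∉ bad → t n = φ n * v n := by
    intro n hn hnb
    have h1 := hgood n hn hnb
    rw [ht, hφ, if_pos, mul_comm]
    · refine congrArg (· * v n) (prod_congr rfl fun i _ => ?_)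
      unfold psi
      rw [max_eq_left (h1 i).1.le]
    · intro i
      have h2 := (h1 i).1
      have h3 : (2 : ℝ) < |(((P i).eval (n : ℤ) : ℤ) : ℝ)| := by linarith
      have h4 : (2 : ℤ) < |(P i).eval (n : ℤ)| := by exact_mod_cast h3
      exact h4.le
  have hu01 : ∀ n, 0 ≤ u n ∧ u n ≤ 1 := fun n => by
    rw [hu]
    split_ifs
    · exact hv n
    · exact ⟨le_rfl, zero_le_one⟩
  have ht01 : ∀ n, 0 ≤ t n ∧ t n ≤ 2 ^ k := fun n => by
    rw [ht]
    split_ifs with h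
    · have h1 : ∀ i : Fin k, 0 ≤ 1 / Real.log |(((P i).eval (n : ℤ) : ℤ) : ℝ)| ∧
          1 / Real.log |(((P i).eval (n : ℤ) : ℤ) : ℝ)| ≤ 2 := by
        intro i
        have h2 : (2 : ℝ) ≤ |(((P i).eval (n : ℤ) : ℤ) : ℝ)| := by exact_mod_cast h i
        have h3 : Real.log 2 ≤ Real.log |(((P i).eval (n : ℤ) : ℤ) : ℝ)| :=
          Real.log_le_log two_pos h2
        have h4 : (1 / 2 : ℝ) ≤ Real.log 2 := by
          have := Real.log_two_gt_d9
          linarith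
        have h5 : 0 < Real.log |(((P i).eval (n : ℤ) : ℤ) : ℝ)| := by linarith
        refine ⟨by positivity, ?_⟩
        rw [div_le_iff₀ h5]
        linarith
      refine ⟨mul_nonneg (hv n).1 (prod_nonneg fun i _ => (h1 i).1), ?_⟩
      refine (mul_le_of_le_one_left (prod_nonneg fun i _ => (h1 i).1) (hv n).2).trans ?_
      have h6 := prod_le_prod (s := (univ : Finset (Fin k)))
        (f := fun i => 1 / Real.log |(((P i).eval (n : ℤ) : ℤ) : ℝ)|)
        (g := fun _ => (2 : ℝ)) (fun i _ => (h1 i).1) (fun i _ => (h1 i).2)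
      rwa [prod_const, card_univ, Fintype.card_fin] at h6
    · exact ⟨le_rfl, by positivity⟩
  -- a general comparison
  have hcomp : ∀ (x y : ℕ → ℝ) (c : ℝ), (∀ n ∈ Icc 1 K, n ∉ bad → x n = y n) →
      (∀ n ∈ Icc 1 K, |x n - y n| ≤ c) →
      |∑ n ∈ Icc 1 K, x n - ∑ n ∈ Icc 1 K, y n| ≤ bad.card * c := by
    intro x y c h1 h2
    rw [← sum_sub_distrib]
    have h3 : bad ⊆ Icc 1 K := by
      rw [hbdef]
      exact filter_subset _ _
    rw [← sum_subset h3]
    · refine (abs_sum_le_sum_abs _ _).trans ?_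
      rw [← nsmul_eq_mul]
      exact sum_le_card_nsmul _ _ _ fun n hn => h2 n (h3 hn)
    · intro n hn hnb
      rw [h1 n hn hnb, sub_self]
  have hφa : ∀ n ∈ Icc 1 K, φ n * a n ≤ (2 * ((D : ℝ) + 3)) ^ k := by
    intro n hn
    rw [mem_Icc] at hn
    have h1 := mul_le_mul (hφ2 n) (ha1 n hn.1 hn.2) (ha0 n) (by positivity)
    rw [← mul_pow] at h1
    have h2 : 2 / L * (((D : ℝ) + 3) * L) = 2 * ((D : ℝ) + 3) := by field_simp
    rwa [h2] at h1
  have hc1 : |pv - ∑ n ∈ Icc 1 K, φ n * a n| ≤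
      bad.card * (1 + (2 * ((D : ℝ) + 3)) ^ k) := by
    rw [hpi]
    refine hcomp _ _ _ hgu fun n hn => ?_
    have h1 := hφa n hn
    have h2 := mul_nonneg (hφ0 n) (ha0 n)
    rw [abs_le]
    constructor <;> linarith [(hu01 n).1, (hu01 n).2]
  have hc2 : |Mv - ∑ n ∈ Icc 1 K, φ n * v n| ≤ bad.card * (2 ^ k + 1) := by
    rw [hMP]
    refine hcomp _ _ _ hgt fun n hn => ?_
    have h1 := mul_nonneg (hφ0 n) (hv n).1
    have h2 : φ n * v n ≤ 1 := mul_le_one₀ (hφ1 n) (hv n).1 (hv n).2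
    rw [abs_le]
    constructor <;> linarith [(ht01 n).1, (ht01 n).2]
  -- the bound for `S`
  have hpowk : (((D : ℝ) + 3) * L) ^ k + 1 ≤ L ^ (k + 1) := by
    rw [mul_pow, pow_succ]
    have h1 : 1 ≤ L ^ k := one_le_pow₀ hL1
    have h2 : ((D : ℝ) + 3) ^ k + 1 ≤ L := by linarith
    calc ((D : ℝ) + 3) ^ k * L ^ k + 1 ≤ (((D : ℝ) + 3) ^ k + 1) * L ^ k := by linarith
      _ ≤ L * L ^ k := mul_le_mul_of_nonneg_right h2 (by positivity)
      _ = L ^ k * L := mul_comm _ _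
  have hA1 : 1 ≤ L ^ (A + k + 3) := one_le_pow₀ hL1
  have hSle : S ≤ L ^ (k + 1) := hSlog
  -- partial sums
  have hE : ∀ n, 1 ≤ n → n ≤ K → |∑ m ∈ Icc 1 n, (a m - S * v m)| ≤ K / L ^ (A + k + 3) := by
    intro n hn1 hn2
    by_cases hnB : K1 ≤ n
    · have h1 := hmain n hnB hn2
      have h2 : ∑ m ∈ Icc 1 n, (a m - S * v m) =
          ∑ m ∈ Icc 1 n, v m * ∏ i, ArithmeticFunction.vonMangoldt ((P i).eval (m : ℤ)).natAbs -
            S * ∑ m ∈ Icc 1 n, v m := by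
        rw [sum_sub_distrib, ← mul_sum]
        congr 1
        exact sum_congr rfl fun m _ => ha m
      rw [h2]
      refine h1.trans (div_le_div_of_nonneg_right ?_ (by positivity))
      exact_mod_cast hn2
    · push Not at hnB
      have h1 : |∑ m ∈ Icc 1 n, (a m - S * v m)| ≤ n * L ^ (k + 2) := by
        refine (abs_sum_le_sum_abs _ _).trans ?_
        have h3 := sum_le_card_nsmul (Icc 1 n) (fun m => |a m - S * v m|) (L ^ (k + 2)) ?_
        · rwa [Nat.card_Icc, Nat.add_sub_cancel, nsmul_eq_mul] at h3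
        · intro m hm
          rw [mem_Icc] at hm
          have h4 := ha1 m hm.1 (hm.2.trans hn2)
          have h5 : L ^ (k + 1) ≤ L ^ (k + 2) := pow_le_pow_right₀ hL1 (by omega)
          have h6 := ha0 m
          have h7 : 0 ≤ S * v m := mul_nonneg hS (hv m).1
          have h8 : S * v m ≤ S := mul_le_of_le_one_right hS (hv m).2
          show |a m - S * v m| ≤ _
          rw [abs_le]
          constructor <;> linarith
      refine h1.trans ?_
      rw [le_div_iff₀ (by positivity)]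
      refine le_trans ?_ hK1
      have h9 : (n : ℝ) ≤ K1 := by exact_mod_cast hnB.le
      have h10 : L ^ (k + 2) * L ^ (A + k + 3) ≤ L ^ (A + k + 3 + k + 4) := by
        rw [← pow_add]
        exact pow_le_pow_right₀ hL1 (by omega)
      rw [mul_assoc]
      exact mul_le_mul h9 h10 (by positivity) (by positivity)
  -- total variation
  have hV : ∑ n ∈ Ico 1 K, |φ (n + 1) - φ n| ≤ 4 * k * D := by
    have h1 : ∀ n ∈ Ico 1 K, |φ (n + 1) - φ n| ≤ ∑ i, |psi (P i) Y (n + 1) - psi (P i) Y n| := by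
      intro n _
      rw [hφ, hφ]
      exact prod_sub_le _ _ _ (hpsi1 (n + 1)) (hpsi1 n)
    refine (sum_le_sum h1).trans ?_
    rw [sum_comm]
    have h2 := sum_le_card_nsmul (univ : Finset (Fin k))
      (fun i => ∑ n ∈ Ico 1 K, |psi (P i) Y (n + 1) - psi (P i) Y n|) (4 * D) ?_
    · rw [card_univ, Fintype.card_fin, nsmul_eq_mul] at h2
      refine h2.trans (le_of_eq (by ring))
    · intro i _
      refine (hTV (P i) D K Y (hdeg i) hY3).trans ?_
      rw [hlogY, div_le_iff₀ (by linarith)]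
      nlinarith
  have hsum := abel_le φ (fun m => a m - S * v m) K hK _ _ (by positivity)
    (by rw [abs_of_nonneg (hφ0 K)]; exact hφ1 K) hE hV
  -- the end
  have hbc0 : (0 : ℝ) ≤ bad.card := Nat.cast_nonneg _
  have e1 : pv - S * Mv = (pv - ∑ n ∈ Icc 1 K, φ n * a n) +
      ∑ n ∈ Icc 1 K, φ n * (a n - S * v n) - S * (Mv - ∑ n ∈ Icc 1 K, φ n * v n) := by
    have e2 : ∑ n ∈ Icc 1 K, φ n * (a n - S * v n) =
        ∑ n ∈ Icc 1 K, φ n * a n - S * ∑ n ∈ Icc 1 K, φ n * v n := by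
      rw [mul_sum, ← sum_sub_distrib]
      exact sum_congr rfl fun n _ => by ring
    rw [e2]
    ring
  have e3 : |pv - S * Mv| ≤ bad.card * (1 + (2 * ((D : ℝ) + 3)) ^ k) +
      K / L ^ (A + k + 3) * (1 + 4 * k * D) + L ^ (k + 1) * (bad.card * (2 ^ k + 1)) := by
    rw [e1]
    refine (abs_sub _ _).trans (add_le_add ((abs_add_le _ _).trans (add_le_add hc1 hsum)) ?_)
    rw [abs_mul, abs_of_nonneg hS]
    exact mul_le_mul hSle hc2 (abs_nonneg _) (by positivity)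
  refine e3.trans ?_
  obtain ⟨Z, hZ⟩ : ∃ Z : ℝ, Z = K / L ^ (A + k + 3) := ⟨_, rfl⟩
  have hZ0 : 0 ≤ Z := by rw [hZ]; positivity
  have hZA : Z * L ^ (k + 3) = K / L ^ A := by
    rw [hZ, add_assoc, pow_add]
    field_simp
  rw [← hZ] at hbad ⊢
  rw [← hZA]
  have hLk : 1 ≤ L ^ k := one_le_pow₀ hL1
  have f1 : (bad.card : ℝ) * (1 + (2 * ((D : ℝ) + 3)) ^ k) ≤ Z * L ^ (k + 1) := by
    refine mul_le_mul hbad ?_ (by positivity) hZ0
    rw [pow_succ]
    have : 1 + (2 * ((D : ℝ) + 3)) ^ k ≤ L := by linarith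
    exact this.trans (le_mul_of_one_le_left hL0.le hLk)
  have f2 : Z * (1 + 4 * k * D) ≤ Z * L ^ (k + 1) := by
    refine mul_le_mul_of_nonneg_left ?_ hZ0
    rw [pow_succ]
    have : 1 + 4 * (k : ℝ) * D ≤ L := by linarith
    exact this.trans (le_mul_of_one_le_left hL0.le hLk)
  have f3 : L ^ (k + 1) * ((bad.card : ℝ) * (2 ^ k + 1)) ≤ Z * L ^ (k + 1) * (2 ^ k + 1) := by
    have : (bad.card : ℝ) * (2 ^ k + 1) ≤ Z * (2 ^ k + 1) :=
      mul_le_mul_of_nonneg_right hbad (by positivity)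
    calc L ^ (k + 1) * ((bad.card : ℝ) * (2 ^ k + 1)) ≤ L ^ (k + 1) * (Z * (2 ^ k + 1)) :=
          mul_le_mul_of_nonneg_left this (by positivity)
      _ = Z * L ^ (k + 1) * (2 ^ k + 1) := by ring
  have f4 : Z * L ^ (k + 1) * (2 ^ k + 3) ≤ Z * L ^ (k + 3) := by
    have h1 : (2 : ℝ) ^ k + 3 ≤ L := by linarith
    have h2 : L ^ (k + 1) * (2 ^ k + 3) ≤ L ^ (k + 3) := by
      calc L ^ (k + 1) * (2 ^ k + 3) ≤ L ^ (k + 1) * L :=
            mul_le_mul_of_nonneg_left h1 (by positivity)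
        _ = L ^ (k + 2) := by ring
        _ ≤ L ^ (k + 3) := pow_le_pow_right₀ hL1 (by omega)
    rw [mul_assoc]
    exact mul_le_mul_of_nonneg_left h2 hZ0
  linarith

end Pool.Agent.Q285.CR
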